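import Pool.Agent.H964.LF.Stm

/-!
# Assembly of the tail bound in a chart
-/

set_option autoImplicit false

namespace Pool.Agent.H282.LF

open MeasureTheory Pool.Agent.H964.LF
open scoped ENNReal

noncomputable section

/-! ## Parity and the skeleton -/

theorem par_add {d n : ℕ} (u v : Tor d n) : par (u + v) = par u + par v := by
  unfold par
  simp only [Pi.add_apply, map_add, Finset.sum_add_distrib]

theorem par_ctr {d n : ℕ} (τ : Tor d n) (K : ℕ) (hK : 2 ∣ K) (k : Site d) :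
    par (ctr τ K k) = par τ := by
  have h1 : ctr τ K k = τ + (fun i => ((K * k i : ℕ) : ZMod (2 * n + 2))) := rfl
  rw [h1, par_add]
  have h2 : par ((fun i => ((K * k i : ℕ) : ZMod (2 * n + 2))) : Tor d n) = 0 := by
    unfold par
    apply Finset.sum_eq_zero
    intro i _
    rw [map_natCast]
    exact (ZMod.natCast_eq_zero_iff _ _).2 (Dvd.dvd.mul_right hK _)
  rw [h2, add_zero]

theorem par_zt {d : ℕ} (n : ℕ) (z : Fin d → ℤ) (hz : Even (∑ j, z j)) : par (zt n z) = 0 := by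
  unfold par zt
  have h1 : ∑ i, (ZMod.castHom (show 2 ∣ 2 * n + 2 from ⟨n + 1, by ring⟩) (ZMod 2))
      ((z i : ℤ) : ZMod (2 * n + 2)) = ((∑ i, z i : ℤ) : ZMod 2) := by
    rw [Int.cast_sum]
    refine Finset.sum_congr rfl (fun i _ => ?_)
    rw [map_intCast]
  rw [h1]
  exact (ZMod.intCast_zmod_eq_zero_iff_dvd _ 2).2 (by exact_mod_cast hz.two_dvd)

theorem ctr_sx {d n : ℕ} (τ : Tor d n) (K : ℕ) (q : Site d) (i : Fin d) :
    ctr τ K (sx q i) = ctr τ K q + Pi.single i ((K : ℕ) : ZMod (2 * n + 2)) := by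
  funext j
  unfold ctr sx
  rw [Pi.add_apply, Pi.add_apply]
  by_cases hj : j = i
  · subst hj
    rw [Pi.single_eq_same, Pi.single_eq_same]
    push_cast
    ring
  · rw [Pi.single_eq_of_ne hj, Pi.single_eq_of_ne hj, add_zero, add_zero]

theorem mem_Grid {d J : ℕ} {q : Site d} : q ∈ Grid d J ↔ ∀ i, q i < 2 ^ J := by
  unfold Grid
  rw [Fintype.mem_piFinset]
  simp only [Finset.mem_range]

theorem sx_mem_Grid {d J : ℕ} {q : Site d} (hq : q ∈ Grid d J) (i : Fin d)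
    (hi : q i + 1 < 2 ^ J) : sx q i ∈ Grid d J := by
  rw [mem_Grid] at hq ⊢
  intro j
  unfold sx
  rw [Pi.add_apply]
  by_cases hj : j = i
  · subst hj
    rw [Pi.single_eq_same]
    exact hi
  · rw [Pi.single_eq_of_ne hj, add_zero]
    exact hq j

theorem ctr_mem_Sk {d n : ℕ} (τ : Tor d n) (K J : ℕ) {q : Site d} (hq : q ∈ Grid d J) :
    ctr τ K q ∈ Sk τ K J := Finset.mem_image_of_mem _ hq

theorem mg_congr {d n : ℕ} (τ : Tor d n) (K J : ℕ) (f : (Tor d n → ℝ) → ℝ≥0∞)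
    (hf : ∀ x y : Tor d n → ℝ, (∀ v, par v = 1 → x v = y v) → f x = f y)
    (x y : Tor d n → ℝ) (h : ∀ v ∈ Sk τ K J, x v = y v) :
    mg (Yk τ K J) f x = mg (Yk τ K J) f y := by
  unfold mg lmarginal
  refine lintegral_congr (fun z => hf _ _ (fun v hv => ?_))
  by_cases hvY : v ∈ Yk τ K J
  · simp [Function.updateFinset, hvY]
  · have h1 : v ∈ Sk τ K J := by
      by_contra h2
      apply hvY
      unfold Yk
      refine Finset.mem_sdiff.2 ⟨?_, h2⟩
      unfold od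
      exact Finset.mem_filter.2 ⟨Finset.mem_univ _, hv⟩
    simp [Function.updateFinset, hvY, h v h1]

theorem Gd_odd {d n : ℕ} (τ : Tor d n) (K : ℕ) (hτ : par τ = 1) (hK : 2 ∣ K) (k : Site d)
    (δ δ0 : ℝ) (k0 R : ℕ) (x y : Tor d n → ℝ) (h : ∀ v, par v = 1 → x v = y v)
    (hx : x ∈ Gd τ K k δ δ0 k0 R) : y ∈ Gd τ K k δ δ0 k0 R := by
  intro z z' hz hz' hez hez'
  have h1 : ∀ z : Fin d → ℤ, Even (∑ j, z j) → x (ctr τ K k + zt n z) = y (ctr τ K k + zt n z) := by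
    intro z hz
    apply h
    rw [par_add, par_ctr τ K hK k, par_zt n z hz, hτ, add_zero]
  have h2 := hx z z' hz hz' hez hez'
  rw [h1 z hez, h1 z' hez'] at h2
  exact h2

theorem ind_odd {d n : ℕ} (τ : Tor d n) (K : ℕ) (hτ : par τ = 1) (hK : 2 ∣ K) (k : Site d)
    (δ δ0 : ℝ) (k0 R : ℕ) (f : (Tor d n → ℝ) → ℝ≥0∞)
    (hf : ∀ x y : Tor d n → ℝ, (∀ v, par v = 1 → x v = y v) → f x = f y)
    (x y : Tor d n → ℝ) (h : ∀ v, par v = 1 → x v = y v) :
    (Gd τ K k δ δ0 k0 R).indicator f x = (Gd τ K k δ δ0 k0 R).indicator f y := by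
  by_cases hx : x ∈ Gd τ K k δ δ0 k0 R
  · have hy := Gd_odd τ K hτ hK k δ δ0 k0 R x y h hx
    rw [Set.indicator_of_mem hx, Set.indicator_of_mem hy]
    exact hf x y h
  · have hy : y ∉ Gd τ K k δ δ0 k0 R := fun hy =>
      hx (Gd_odd τ K hτ hK k δ δ0 k0 R y x (fun v hv => (h v hv).symm) hy)
    rw [Set.indicator_of_notMem hx, Set.indicator_of_notMem hy]

theorem Bd_congr {d n : ℕ} (p τ : Tor d n) (K J : ℕ) (hτ : par τ = 1) (hK : 2 ∣ K)
    (hp : par p = 1) (hd : 1 ≤ d) (hB : S_BAS)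
    (δ δ0 : ℝ) (k0 R : ℕ) (x y : Tor d n → ℝ) (h : ∀ v ∈ Sk τ K J, x v = y v) :
    Bd p τ K J δ δ0 k0 R x = Bd p τ K J δ δ0 k0 R y := by
  have hF : ∀ x y : Tor d n → ℝ, (∀ v, par v = 1 → x v = y v) → FF p x = FF p y := by
    intro x y hxy
    exact (hB d n hd).2.2.2.2.2 p x y hp hxy
  unfold Bd
  refine Finset.filter_congr (fun k _ => ?_)
  rw [mg_congr τ K J _ (ind_odd τ K hτ hK k δ δ0 k0 R (FF p) hF) x y h,
    mg_congr τ K J (FF p) hF x y h]

/-! ## Measurability -/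

theorem Gd_meas {d n : ℕ} (τ : Tor d n) (K : ℕ) (k : Site d) (δ δ0 : ℝ) (k0 R : ℕ) :
    MeasurableSet (Gd τ K k δ δ0 k0 R) := by
  have hle : ∀ (a b : Tor d n) (c : ℝ), MeasurableSet {x : Tor d n → ℝ | |x a - x b| ≤ c} := by
    intro a b c
    exact (isClosed_le ((continuous_apply a).sub (continuous_apply b)).abs
      continuous_const).measurableSet
  unfold Gd
  simp only [Set.ofPred_forall, Set.ofPred_and]
  refine MeasurableSet.iInter fun z => MeasurableSet.iInter fun z' => MeasurableSet.iInter fun _ =>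
    MeasurableSet.iInter fun _ => MeasurableSet.iInter fun _ => MeasurableSet.iInter fun _ =>
    MeasurableSet.inter (hle _ _ _) (MeasurableSet.iInter fun _ => hle _ _ _)

theorem Bd_meas {d n : ℕ} (p τ : Tor d n) (K J : ℕ) (δ δ0 : ℝ) (k0 R : ℕ)
    (hF : Measurable (FF p)) (P : Finset (Site d) → Prop) :
    MeasurableSet {x : Tor d n → ℝ | P (Bd p τ K J δ δ0 k0 R x)} := by
  have h1 : ∀ q, MeasurableSet {x : Tor d n → ℝ | q ∈ Bd p τ K J δ δ0 k0 R x} := by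
    intro q
    by_cases hq : q ∈ Grid d J
    · have h2 : {x : Tor d n → ℝ | q ∈ Bd p τ K J δ δ0 k0 R x} = {x : Tor d n → ℝ |
          mg (Yk τ K J) ((Gd τ K q δ δ0 k0 R).indicator (FF p)) x <
            (1 / 2 : ℝ≥0∞) * mg (Yk τ K J) (FF p) x} := by
        ext x
        simp only [Set.mem_ofPred_eq, Bd, Finset.mem_filter, hq, true_and]
      rw [h2]
      refine measurableSet_lt ?_ ?_
      · exact Measurable.lmarginal _ (hF.indicator (Gd_meas τ K q δ δ0 k0 R))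
      · exact (Measurable.lmarginal _ hF).const_mul _
    · have h2 : {x : Tor d n → ℝ | q ∈ Bd p τ K J δ δ0 k0 R x} = ∅ := by
        ext x
        simp only [Set.mem_ofPred_eq, Bd, Finset.mem_filter, hq, false_and, Set.mem_empty_iff_false]
      rw [h2]
      exact MeasurableSet.empty
  have h2 : ∀ B : Finset (Site d), MeasurableSet {x : Tor d n → ℝ | Bd p τ K J δ δ0 k0 R x = B} := by
    intro B
    have h3 : {x : Tor d n → ℝ | Bd p τ K J δ δ0 k0 R x = B} =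
        ⋂ q : Site d, {x : Tor d n → ℝ | q ∈ Bd p τ K J δ δ0 k0 R x ↔ q ∈ B} := by
      ext x
      simp only [Set.mem_ofPred_eq, Set.mem_iInter, Finset.ext_iff]
    rw [h3]
    refine MeasurableSet.iInter (fun q => ?_)
    by_cases hq : q ∈ B
    · simp only [hq, iff_true]
      exact h1 q
    · simp only [hq, iff_false]
      exact (h1 q).compl
  have h3 : {x : Tor d n → ℝ | P (Bd p τ K J δ δ0 k0 R x)} =
      ⋃ (B : Finset (Site d)) (_ : P B), {x : Tor d n → ℝ | Bd p τ K J δ δ0 k0 R x = B} := by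
    ext x
    simp only [Set.mem_ofPred_eq, Set.mem_iUnion, exists_prop]
    constructor
    · intro h
      exact ⟨_, h, rfl⟩
    · rintro ⟨B, hB, rfl⟩
      exact hB
  rw [h3]
  exact MeasurableSet.iUnion fun B => MeasurableSet.iUnion fun _ => h2 B

/-- The gradient bound on the skeleton. -/
def LSk {d n : ℕ} (τ : Tor d n) (K J : ℕ) (x : Tor d n → ℝ) : Prop :=
  ∀ q ∈ Grid d J, ∀ i : Fin d, q i + 1 < 2 ^ J → |x (ctr τ K (sx q i)) - x (ctr τ K q)| ≤ K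

theorem LSk_meas {d n : ℕ} (τ : Tor d n) (K J : ℕ) :
    MeasurableSet {x : Tor d n → ℝ | LSk τ K J x} := by
  have hle : ∀ (a b : Tor d n) (c : ℝ), MeasurableSet {x : Tor d n → ℝ | |x a - x b| ≤ c} := by
    intro a b c
    exact (isClosed_le ((continuous_apply a).sub (continuous_apply b)).abs
      continuous_const).measurableSet
  unfold LSk
  simp only [Set.ofPred_forall]
  exact MeasurableSet.iInter fun q => MeasurableSet.iInter fun _ => MeasurableSet.iInter fun i =>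
    MeasurableSet.iInter fun _ => hle _ _ _

theorem lip_steps {d n : ℕ} {ψ : Tor d n → ℝ} (h : Lip ψ) (v : Tor d n) (i : Fin d) (m : ℕ) :
    |ψ (v + Pi.single i ((m : ℕ) : ZMod (2 * n + 2))) - ψ v| ≤ m := by
  induction m with
  | zero => simp
  | succ m ih =>
    have h1 : v + Pi.single i (((m + 1 : ℕ)) : ZMod (2 * n + 2)) =
        (v + Pi.single i ((m : ℕ) : ZMod (2 * n + 2))) + Pi.single i 1 := by
      rw [add_assoc, ← Pi.single_add]
      push_cast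
      rfl
    rw [h1]
    have h2 := h (v + Pi.single i ((m : ℕ) : ZMod (2 * n + 2))) i
    have h3 := abs_sub_le (ψ ((v + Pi.single i ((m : ℕ) : ZMod (2 * n + 2))) + Pi.single i 1))
      (ψ (v + Pi.single i ((m : ℕ) : ZMod (2 * n + 2)))) (ψ v)
    push_cast
    linarith only [h2, h3, ih]

theorem LSk_of_Lip {d n : ℕ} {ψ : Tor d n → ℝ} (h : Lip ψ) (τ : Tor d n) (K J : ℕ) :
    LSk τ K J ψ := by
  intro q _ i _
  rw [ctr_sx]
  exact lip_steps h _ i K

theorem Lip_meas {d n : ℕ} (p : Tor d n) :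
    MeasurableSet {ψ : Tor d n → ℝ | Lip ψ ∧ |ψ p| ≤ 1 / 2} := by
  have hle : ∀ (a b : Tor d n) (c : ℝ), MeasurableSet {x : Tor d n → ℝ | |x a - x b| ≤ c} := by
    intro a b c
    exact (isClosed_le ((continuous_apply a).sub (continuous_apply b)).abs
      continuous_const).measurableSet
  have h1 : MeasurableSet {ψ : Tor d n → ℝ | |ψ p| ≤ 1 / 2} :=
    (isClosed_le (continuous_apply p).abs continuous_const).measurableSet
  have h2 : MeasurableSet {ψ : Tor d n → ℝ | Lip ψ} := by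
    unfold Lip
    simp only [Set.ofPred_forall]
    exact MeasurableSet.iInter fun x => MeasurableSet.iInter fun i => hle _ _ _
  rw [Set.ofPred_and]
  exact h2.inter h1

/-! ## Walks in the coarse grid -/

theorem walk1 {d J : ℕ} {w : Site d → ℝ} {Λ : ℝ} (h : LipG J w Λ) (c : Site d)
    (hc : c ∈ Grid d J) (i : Fin d) (m : ℕ) (hm : c i + m < 2 ^ J) :
    |w (c + Pi.single i m) - w c| ≤ Λ * m := by
  induction m with
  | zero => simp
  | succ m ih =>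
    have h1 : c + Pi.single i (m + 1) = sx (c + Pi.single i m) i := by
      unfold sx
      rw [Pi.single_add, add_assoc]
    have hcm : (c + Pi.single i m : Site d) ∈ Grid d J := by
      rw [mem_Grid] at hc ⊢
      intro j
      by_cases hj : j = i
      · subst hj
        rw [Pi.add_apply, Pi.single_eq_same]
        omega
      · rw [Pi.add_apply, Pi.single_eq_of_ne hj, add_zero]
        exact hc j
    have hi : (c + Pi.single i m : Site d) i + 1 < 2 ^ J := by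
      rw [Pi.add_apply, Pi.single_eq_same]
      omega
    have h2 := h _ hcm i hi
    have h3 := ih (by omega)
    have h4 := abs_sub_le (w (sx (c + Pi.single i m) i)) (w (c + Pi.single i m)) (w c)
    rw [h1]
    push_cast
    linarith only [h2, h3, h4]

theorem walk2 {d J : ℕ} {w : Site d → ℝ} {Λ : ℝ} (h : LipG J w Λ) (c : Site d)
    (hc : c ∈ Grid d J) (i : Fin d) (m : ℕ) (hm : m < 2 ^ J) :
    |w (Function.update c i m) - w c| ≤ Λ * |(m : ℝ) - c i| := by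
  rcases Nat.le_total (c i) m with hle | hle
  · have h1 : Function.update c i m = c + Pi.single i (m - c i) := by
      funext j
      by_cases hj : j = i
      · subst hj
        rw [Function.update_self, Pi.add_apply, Pi.single_eq_same]
        omega
      · rw [Function.update_of_ne hj, Pi.add_apply, Pi.single_eq_of_ne hj, add_zero]
    have h2 := walk1 h c hc i (m - c i) (by omega)
    rw [h1]
    refine h2.trans_eq ?_
    rw [Nat.cast_sub hle, abs_of_nonneg (sub_nonneg.2 (by exact_mod_cast hle))]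
  · have hc' : Function.update c i m ∈ Grid d J := by
      rw [mem_Grid] at hc ⊢
      intro j
      by_cases hj : j = i
      · subst hj
        rw [Function.update_self]
        exact hm
      · rw [Function.update_of_ne hj]
        exact hc j
    have h1 : c = Function.update c i m + Pi.single i (c i - m) := by
      funext j
      by_cases hj : j = i
      · subst hj
        rw [Pi.add_apply, Function.update_self, Pi.single_eq_same]
        omega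
      · rw [Pi.add_apply, Function.update_of_ne hj, Pi.single_eq_of_ne hj, add_zero]
    have h2 := walk1 h (Function.update c i m) hc' i (c i - m) (by
      rw [Function.update_self]
      have := (mem_Grid.1 hc) i
      omega)
    rw [← h1] at h2
    rw [abs_sub_comm]
    refine h2.trans_eq ?_
    rw [Nat.cast_sub hle, abs_sub_comm (m : ℝ),
      abs_of_nonneg (sub_nonneg.2 (by exact_mod_cast hle : (m : ℝ) ≤ c i))]

theorem walk3 {d J : ℕ} {w : Site d → ℝ} {Λ : ℝ} (h : LipG J w Λ) (a b : Site d)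
    (ha : a ∈ Grid d J) (hb : b ∈ Grid d J) (S : Finset (Fin d)) :
    |w (S.piecewise a b) - w b| ≤ Λ * ∑ i ∈ S, |(a i : ℝ) - b i| := by
  induction S using Finset.induction_on with
  | empty => simp
  | insert i S hi ih =>
    have hm : S.piecewise a b ∈ Grid d J := by
      rw [mem_Grid] at ha hb ⊢
      intro j
      by_cases hj : j ∈ S
      · rw [Finset.piecewise_eq_of_mem _ _ _ hj]
        exact ha j
      · rw [Finset.piecewise_eq_of_notMem _ _ _ hj]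
        exact hb j
    have h1 := walk2 h (S.piecewise a b) hm i (a i) ((mem_Grid.1 ha) i)
    rw [Finset.piecewise_eq_of_notMem _ _ _ hi] at h1
    rw [Finset.piecewise_insert, Finset.sum_insert hi, mul_add]
    have h2 := abs_sub_le (w (Function.update (S.piecewise a b) i (a i))) (w (S.piecewise a b))
      (w b)
    linarith only [h1, h2, ih]

theorem walk4 {d J : ℕ} {w : Site d → ℝ} {Λ : ℝ} (h : LipG J w Λ) (a b : Site d)
    (ha : a ∈ Grid d J) (hb : b ∈ Grid d J) :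
    |w a - w b| ≤ Λ * ∑ i, |(a i : ℝ) - b i| := by
  have h1 := walk3 h a b ha hb Finset.univ
  rwa [Finset.piecewise_univ] at h1

theorem walk5 {d J j0 : ℕ} {w : Site d → ℝ} {Λ : ℝ} (hΛ : 0 ≤ Λ) (h : LipG J w Λ) (k q : Site d)
    (hk : k ∈ Grid d J) (hq : q ∈ cells J 0 j0 k) :
    |w q - w k| ≤ Λ * (d * 2 ^ j0) := by
  unfold cells at hq
  have hq1 := (Finset.mem_filter.1 hq).1
  have hq2 := (Finset.mem_filter.1 hq).2
  rw [Nat.sub_zero] at hq1 hq2
  refine (walk4 h q k hq1 hk).trans ?_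
  refine mul_le_mul_of_nonneg_left ?_ hΛ
  have h1 : ∀ i ∈ (Finset.univ : Finset (Fin d)), |(q i : ℝ) - k i| ≤ 2 ^ j0 := by
    intro i _
    have h2 := hq2 i
    have h3 := Nat.div_add_mod (q i) (2 ^ j0)
    have h4 := Nat.div_add_mod (k i) (2 ^ j0)
    have h5 := Nat.mod_lt (q i) (show 0 < 2 ^ j0 by positivity)
    have h6 := Nat.mod_lt (k i) (show 0 < 2 ^ j0 by positivity)
    rw [h2] at h3
    have h7 : q i ≤ k i + 2 ^ j0 := by omega
    have h8 : k i ≤ q i + 2 ^ j0 := by omega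
    have h7' : (q i : ℝ) ≤ k i + 2 ^ j0 := by exact_mod_cast h7
    have h8' : (k i : ℝ) ≤ q i + 2 ^ j0 := by exact_mod_cast h8
    rw [abs_le]
    constructor
    · linarith only [h8']
    · linarith only [h7']
  refine (Finset.sum_le_card_nsmul _ _ _ h1).trans_eq ?_
  rw [Finset.card_univ, Fintype.card_fin, nsmul_eq_mul]

/-! ## Symmetry -/

theorem vl_neg {d n : ℕ} (p : Tor d n) (E1 E2 : Set (Tor d n → ℝ))
    (h : ∀ ψ ∈ E1, -ψ ∈ E2) : vl p E1 ≤ vl p E2 := by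
  unfold vl
  have h1 : {ψ : Tor d n → ℝ | Lip ψ ∧ |ψ p| ≤ 1 / 2 ∧ ψ ∈ E1} ⊆
      -{ψ : Tor d n → ℝ | Lip ψ ∧ |ψ p| ≤ 1 / 2 ∧ ψ ∈ E2} := by
    rintro ψ ⟨hL, hp, hE⟩
    rw [Set.mem_neg]
    refine ⟨?_, ?_, h ψ hE⟩
    · intro x i
      have h2 := hL x i
      rw [Pi.neg_apply, Pi.neg_apply, neg_sub_neg, abs_sub_comm]
      exact h2
    · rw [Pi.neg_apply, abs_neg]
      exact hp
  refine (measure_mono h1).trans_eq ?_
  exact Measure.measure_neg _ _

/-! ## The energy -/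

theorem energy {d n : ℕ} (p τ : Tor d n) (K J K0 R : ℕ) (δ δ0 θ E : ℝ) (x y : Tor d n → ℝ)
    (hK : 0 < K) (hK2 : K ≤ 2 * K0) (hθ : 0 < θ) (hE : 0 ≤ E)
    (hres : ∀ k ∈ Grid d J, ∀ i : Fin d, k i + 1 < 2 ^ J →
      ENNReal.ofReal θ * mg (Yk τ K J) ((Gd τ K k δ δ0 K0 R).indicator (FF p)) x ≤
        mg (Yk τ K J) ((Nev τ K k i).indicator (FF p)) x)
    (hSS : E ≤ SS (Bd p τ K J δ δ0 K0 R x) (fun q => x (ctr τ K q) - y (ctr τ K q)) J 0) :
    ENNReal.ofReal (θ / (3072 * K0) * E) * mg (Yk τ K J) (FF p) x ≤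
      ∑ k ∈ Grid d J, ∑ i : Fin d,
      if k i + 1 < 2 ^ J then
        ENNReal.ofReal (((x (ctr τ K (sx k i)) - y (ctr τ K (sx k i))) -
          (x (ctr τ K k) - y (ctr τ K k))) ^ 2 / (768 * K)) *
          mg (Yk τ K J) ((Nev τ K k i).indicator (FF p)) x else 0 := by
  classical
  obtain ⟨T, hT⟩ : ∃ T : Site d → Fin d → ℝ, T = fun q i =>
      if q i + 1 < 2 ^ J ∧ ¬ q ∈ Bd p τ K J δ δ0 K0 R x ∧
        ¬ sx q i ∈ Bd p τ K J δ δ0 K0 R x then
      ((x (ctr τ K (sx q i)) - y (ctr τ K (sx q i))) - (x (ctr τ K q) - y (ctr τ K q))) ^ 2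
      else 0 := ⟨_, rfl⟩
  have hSS2 : SS (Bd p τ K J δ δ0 K0 R x) (fun q => x (ctr τ K q) - y (ctr τ K q)) J 0 =
      ∑ q ∈ Grid d J, ∑ i : Fin d, T q i := by
    rw [hT]
    unfold SS
    refine Finset.sum_congr rfl (fun q _ => Finset.sum_congr rfl (fun i _ => ?_))
    exact if_congr Iff.rfl rfl rfl
  have hT0 : ∀ q i, 0 ≤ T q i := by
    intro q i
    rw [hT]
    dsimp only
    split_ifs
    · exact sq_nonneg _
    · exact le_refl _
  have hKr : (0 : ℝ) < K := by exact_mod_cast hK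
  have hK2r : (K : ℝ) ≤ 2 * K0 := by exact_mod_cast hK2
  have hK0r : (0 : ℝ) < K0 := by linarith only [hKr, hK2r]
  have h1 : θ / (3072 * K0) * E ≤ ∑ q ∈ Grid d J, ∑ i : Fin d, θ / (1536 * K) * T q i := by
    have h2 : θ / (3072 * K0) ≤ θ / (1536 * K) := by
      apply div_le_div_of_nonneg_left hθ.le (by positivity)
      linarith only [hK2r]
    have h3 : θ / (3072 * K0) * E ≤ θ / (1536 * K) *
        SS (Bd p τ K J δ δ0 K0 R x) (fun q => x (ctr τ K q) - y (ctr τ K q)) J 0 :=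
      mul_le_mul h2 hSS hE (by positivity)
    refine h3.trans_eq ?_
    rw [hSS2, Finset.mul_sum]
    exact Finset.sum_congr rfl (fun q _ => Finset.mul_sum _ _ _)
  refine (mul_le_mul_left (ENNReal.ofReal_le_ofReal h1) _).trans ?_
  rw [ENNReal.ofReal_sum_of_nonneg (fun q _ => Finset.sum_nonneg (fun i _ =>
    mul_nonneg (by positivity) (hT0 q i))), Finset.sum_mul]
  refine Finset.sum_le_sum (fun q hq => ?_)
  rw [ENNReal.ofReal_sum_of_nonneg (fun i _ => mul_nonneg (by positivity) (hT0 q i)),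
    Finset.sum_mul]
  refine Finset.sum_le_sum (fun i _ => ?_)
  by_cases hc : q i + 1 < 2 ^ J ∧ ¬ q ∈ Bd p τ K J δ δ0 K0 R x ∧
      ¬ sx q i ∈ Bd p τ K J δ δ0 K0 R x
  · have hTq : T q i = ((x (ctr τ K (sx q i)) - y (ctr τ K (sx q i))) -
        (x (ctr τ K q) - y (ctr τ K q))) ^ 2 := by
      rw [hT]
      exact if_pos hc
    rw [if_pos hc.1, hTq]
    have h4 : θ / (1536 * K) * ((x (ctr τ K (sx q i)) - y (ctr τ K (sx q i))) -
        (x (ctr τ K q) - y (ctr τ K q))) ^ 2 =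
        ((x (ctr τ K (sx q i)) - y (ctr τ K (sx q i))) -
        (x (ctr τ K q) - y (ctr τ K q))) ^ 2 / (768 * K) * (θ * (1 / 2)) := by
      field_simp
      ring
    have h5 : ¬ (mg (Yk τ K J) ((Gd τ K q δ δ0 K0 R).indicator (FF p)) x <
        (1 / 2 : ℝ≥0∞) * mg (Yk τ K J) (FF p) x) := by
      intro h6
      apply hc.2.1
      unfold Bd
      exact Finset.mem_filter.2 ⟨hq, h6⟩
    have h7 : (1 / 2 : ℝ≥0∞) = ENNReal.ofReal (1 / 2) := by
      rw [ENNReal.ofReal_div_of_pos (by norm_num), ENNReal.ofReal_one, ENNReal.ofReal_ofNat]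
    rw [h4, ENNReal.ofReal_mul (by positivity), ENNReal.ofReal_mul hθ.le, ← h7, mul_assoc]
    refine mul_le_mul_right ?_ _
    rw [mul_assoc]
    refine le_trans (mul_le_mul_right (not_lt.1 h5) _) ?_
    exact hres q hq i hc.1
  · have hTq : T q i = 0 := by
      rw [hT]
      exact if_neg hc
    rw [hTq, mul_zero, ENNReal.ofReal_zero, zero_mul]
    exact zero_le

/-! ## The two events -/

/-- The event with a large height and the hierarchical condition. -/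
def E1 {d n : ℕ} (ν s : ℝ) (τ : Tor d n) (K J K0 R j0 : ℕ) (δ δ0 : ℝ) (k k' : Site d) :
    Set (Tor d n → ℝ) :=
  {x | s ≤ x (ctr τ K k') ∧ |x (ctr τ K k)| ≤ 1 / 2 ∧ LSk τ K J x ∧
    Hc ν (Bd (ctr τ K k) τ K J δ δ0 K0 R x) J j0 k ∧
    Hc ν (Bd (ctr τ K k) τ K J δ δ0 K0 R x) J j0 k'}

/-- The event with a small height. -/
def E2 {d n : ℕ} (s : ℝ) (τ : Tor d n) (K J : ℕ) (k k' : Site d) : Set (Tor d n → ℝ) :=
  {x | x (ctr τ K k') ≤ -s ∧ |x (ctr τ K k)| ≤ 1 / 2 ∧ LSk τ K J x}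

theorem E1_meas {d n : ℕ} (ν s : ℝ) (τ : Tor d n) (K J K0 R j0 : ℕ) (δ δ0 : ℝ) (k k' : Site d)
    (hF : Measurable (FF (ctr τ K k))) : MeasurableSet (E1 ν s τ K J K0 R j0 δ δ0 k k') := by
  unfold E1
  simp only [Set.ofPred_and]
  refine MeasurableSet.inter ?_ (MeasurableSet.inter ?_ (MeasurableSet.inter (LSk_meas τ K J)
    (MeasurableSet.inter ?_ ?_)))
  · exact (isClosed_le continuous_const (continuous_apply _)).measurableSet
  · exact (isClosed_le (continuous_apply _).abs continuous_const).measurableSet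
  · exact Bd_meas (ctr τ K k) τ K J δ δ0 K0 R hF (fun B => Hc ν B J j0 k)
  · exact Bd_meas (ctr τ K k) τ K J δ δ0 K0 R hF (fun B => Hc ν B J j0 k')

theorem E2_meas {d n : ℕ} (s : ℝ) (τ : Tor d n) (K J : ℕ) (k k' : Site d) :
    MeasurableSet (E2 s τ K J k k') := by
  unfold E2
  simp only [Set.ofPred_and]
  refine MeasurableSet.inter ?_ (MeasurableSet.inter ?_ (LSk_meas τ K J))
  · exact (isClosed_le (continuous_apply _) continuous_const).measurableSet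
  · exact (isClosed_le (continuous_apply _).abs continuous_const).measurableSet

theorem LSk_congr {d n : ℕ} (τ : Tor d n) (K J : ℕ) (x y : Tor d n → ℝ)
    (h : ∀ v ∈ Sk τ K J, x v = y v) (hx : LSk τ K J x) : LSk τ K J y := by
  intro q hq i hi
  have h1 := hx q hq i hi
  rwa [h _ (ctr_mem_Sk τ K J hq), h _ (ctr_mem_Sk τ K J (sx_mem_Grid hq i hi))] at h1

theorem E1_imp {d n : ℕ} (ν s : ℝ) (τ : Tor d n) (K J K0 R j0 : ℕ) (δ δ0 : ℝ) (k k' : Site d)
    (hd : 1 ≤ d) (hB : S_BAS) (hτ : par τ = 1) (hK : 2 ∣ K) (hk : k ∈ Grid d J)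
    (hk' : k' ∈ Grid d J) (x y : Tor d n → ℝ) (h : ∀ v ∈ Sk τ K J, x v = y v)
    (hx : x ∈ E1 ν s τ K J K0 R j0 δ δ0 k k') : y ∈ E1 ν s τ K J K0 R j0 δ δ0 k k' := by
  obtain ⟨h1, h2, h3, h4, h5⟩ := hx
  have hp : par (ctr τ K k) = 1 := by rw [par_ctr τ K hK, hτ]
  have hBd := Bd_congr (ctr τ K k) τ K J hτ hK hp hd hB δ δ0 K0 R x y h
  rw [hBd] at h4 h5
  rw [h _ (ctr_mem_Sk τ K J hk')] at h1
  rw [h _ (ctr_mem_Sk τ K J hk)] at h2
  exact ⟨h1, h2, LSk_congr τ K J x y h h3, h4, h5⟩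

theorem E1_dsk {d n : ℕ} (ν s : ℝ) (τ : Tor d n) (K J K0 R j0 : ℕ) (δ δ0 : ℝ) (k k' : Site d)
    (hd : 1 ≤ d) (hB : S_BAS) (hτ : par τ = 1) (hK : 2 ∣ K) (hk : k ∈ Grid d J)
    (hk' : k' ∈ Grid d J) : dsk τ K J (E1 ν s τ K J K0 R j0 δ δ0 k k') := by
  intro x y h
  exact ⟨E1_imp ν s τ K J K0 R j0 δ δ0 k k' hd hB hτ hK hk hk' x y h,
    E1_imp ν s τ K J K0 R j0 δ δ0 k k' hd hB hτ hK hk hk' y x (fun v hv => (h v hv).symm)⟩

theorem E2_imp {d n : ℕ} (s : ℝ) (τ : Tor d n) (K J : ℕ) (k k' : Site d) (hk : k ∈ Grid d J)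
    (hk' : k' ∈ Grid d J) (x y : Tor d n → ℝ) (h : ∀ v ∈ Sk τ K J, x v = y v)
    (hx : x ∈ E2 s τ K J k k') : y ∈ E2 s τ K J k k' := by
  obtain ⟨h1, h2, h3⟩ := hx
  rw [h _ (ctr_mem_Sk τ K J hk')] at h1
  rw [h _ (ctr_mem_Sk τ K J hk)] at h2
  exact ⟨h1, h2, LSk_congr τ K J x y h h3⟩

theorem E2_dsk {d n : ℕ} (s : ℝ) (τ : Tor d n) (K J : ℕ) (k k' : Site d) (hk : k ∈ Grid d J)
    (hk' : k' ∈ Grid d J) : dsk τ K J (E2 s τ K J k k') := by
  intro x y h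
  exact ⟨E2_imp s τ K J k k' hk hk' x y h,
    E2_imp s τ K J k k' hk hk' y x (fun v hv => (h v hv).symm)⟩

theorem E1_neg {d n : ℕ} (ν s : ℝ) (τ : Tor d n) (K J K0 R j0 : ℕ) (δ δ0 : ℝ) (k k' : Site d)
    (ψ : Tor d n → ℝ) (h : ψ ∈ E1 ν s τ K J K0 R j0 δ δ0 k k') : -ψ ∈ E2 s τ K J k k' := by
  obtain ⟨h1, h2, h3, _, _⟩ := h
  refine ⟨?_, ?_, ?_⟩
  · rw [Pi.neg_apply]
    linarith only [h1]
  · rw [Pi.neg_apply, abs_neg]
    exact h2
  · intro q hq i hi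
    rw [Pi.neg_apply, Pi.neg_apply, neg_sub_neg, abs_sub_comm]
    exact h3 q hq i hi

theorem half_bound {d n : ℕ} (hd : 3 ≤ d) (hBAS : S_BAS) (hCORE : S_CORE)
    (τ : Tor d n) (K J K0 R j0 : ℕ) (δ δ0 θ ν cD : ℝ) (k k' : Site d) (t s : ℝ)
    (hconf : Conf τ K J R) (hK2 : K ≤ 2 * K0) (hk : k ∈ Grid d J) (hk' : k' ∈ Grid d J)
    (hj : j0 ≤ J) (hθ : 0 < θ) (hcD : 0 < cD)
    (hres : ∀ (x : Tor d n → ℝ), ∀ q ∈ Grid d J, ∀ i : Fin d, q i + 1 < 2 ^ J →
      ENNReal.ofReal θ *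
          mg (Yk τ K J) ((Gd τ K q δ δ0 K0 R).indicator (FF (ctr τ K k))) x ≤
        mg (Yk τ K J) ((Nev τ K q i).indicator (FF (ctr τ K k))) x)
    (hdet : ∀ (B : Finset (Site d)) (w : Site d → ℝ) (J j0 : ℕ) (Λ H : ℝ) (k k' : Site d),
      j0 ≤ J → 0 < H → 0 ≤ Λ → LipG J w Λ → Λ * 2 ^ j0 ≤ H → k ∈ Grid d J → k' ∈ Grid d J →
      (∀ q ∈ cells J 0 j0 k, ∀ q' ∈ cells J 0 j0 k', H ≤ w q - w q') →
      Hc ν B J j0 k → Hc ν B J j0 k' →
      cD * H ^ 2 * 2 ^ ((d - 2) * j0) ≤ SS B w J 0)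
    (ht : 0 < t) (hs : t ≤ 2 * s - 1 - 4 * K * d * 2 ^ j0) (hΛ : 2 * (K : ℝ) * 2 ^ j0 ≤ t) :
    vl (ctr τ K k) (E1 ν s τ K J K0 R j0 δ δ0 k k') ≤
      ENNReal.ofReal (Real.exp (-(θ / (3072 * K0) * (cD * t ^ 2 * 2 ^ ((d - 2) * j0))))) *
        vl (ctr τ K k) Set.univ := by
  have hd1 : 1 ≤ d := by omega
  have h2K : 2 ∣ K := Dvd.dvd.trans (by norm_num) hconf.hK
  obtain ⟨Γ, hΓ⟩ : ∃ Γ : ℝ, Γ = θ / (3072 * K0) * (cD * t ^ 2 * 2 ^ ((d - 2) * j0)) := ⟨_, rfl⟩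
  have hΓ0 : 0 ≤ Γ := by
    rw [hΓ]
    positivity
  have hcore := hCORE d n (ctr τ K k) τ K J R (E1 ν s τ K J K0 R j0 δ δ0 k k')
    (E2 s τ K J k k') Γ hd1 hconf (ctr_mem_Sk τ K J hk)
    (E1_meas ν s τ K J K0 R j0 δ δ0 k k' ((hBAS d n hd1).2.2.1 _))
    (E2_meas s τ K J k k')
    (E1_dsk ν s τ K J K0 R j0 δ δ0 k k' hd1 hBAS hconf.hτ h2K hk hk')
    (E2_dsk s τ K J k k' hk hk') hΓ0 (by
      intro x hx y hy _ _
      obtain ⟨hx1, hx2, hx3, hx4, hx5⟩ := hx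
      obtain ⟨hy1, hy2, hy3⟩ := hy
      rw [hΓ]
      refine energy (ctr τ K k) τ K J K0 R δ δ0 θ _ x y hconf.hK0 hK2 hθ (by positivity)
        (hres x) ?_
      have hLip : LipG J (fun q => x (ctr τ K q) - y (ctr τ K q)) (2 * K) := by
        intro q hq i hi
        have h1 := hx3 q hq i hi
        have h2 := hy3 q hq i hi
        rw [abs_le] at h1 h2 ⊢
        constructor
        · linarith only [h1.1, h1.2, h2.1, h2.2]
        · linarith only [h1.1, h1.2, h2.1, h2.2]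
      refine hdet (Bd (ctr τ K k) τ K J δ δ0 K0 R x) (fun q => x (ctr τ K q) - y (ctr τ K q))
        J j0 (2 * K) t k' k hj ht (by positivity) hLip hΛ hk' hk ?_ hx5 hx4
      intro q hq q' hq'
      have h1 := walk5 (by positivity) hLip k' q hk' hq
      have h2 := walk5 (by positivity) hLip k q' hk hq'
      rw [abs_le] at h1 h2 hx2 hy2
      have h3 := h1.1
      have h4 := h2.2
      have h5 : 2 * (K : ℝ) * (d * 2 ^ j0) = 2 * K * d * 2 ^ j0 := by ring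
      rw [h5] at h3 h4
      linarith only [h3, h4, hs, hx1, hy1, hx2.1, hx2.2, hy2.1, hy2.2])
  have hle := vl_neg (ctr τ K k) _ _ (E1_neg ν s τ K J K0 R j0 δ δ0 k k')
  obtain ⟨a, ha⟩ : ∃ a : ℝ≥0∞, a = vl (ctr τ K k) (E1 ν s τ K J K0 R j0 δ δ0 k k') := ⟨_, rfl⟩
  obtain ⟨b, hb⟩ : ∃ b : ℝ≥0∞, b = vl (ctr τ K k) (E2 s τ K J k k') := ⟨_, rfl⟩
  obtain ⟨V, hV⟩ : ∃ V : ℝ≥0∞, V = vl (ctr τ K k) Set.univ := ⟨_, rfl⟩
  rw [← ha, ← hb] at hle
  rw [← ha, ← hb, ← hV] at hcore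
  rw [← ha, ← hV, ← hΓ]
  have h1 : (a * ENNReal.ofReal (Real.exp Γ)) ^ 2 ≤ V ^ 2 := by
    refine le_trans ?_ hcore
    have h2 : ENNReal.ofReal (Real.exp (2 * Γ)) = ENNReal.ofReal (Real.exp Γ) ^ 2 := by
      rw [← ENNReal.ofReal_pow (Real.exp_pos _).le, ← Real.exp_nat_mul]
      norm_num
    rw [mul_pow, h2, pow_two a]
    exact mul_le_mul_left (mul_le_mul_right hle a) _
  have h2 : a * ENNReal.ofReal (Real.exp Γ) ≤ V := (ENNReal.pow_le_pow_left_iff two_ne_zero).1 h1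
  have h3 : a = ENNReal.ofReal (Real.exp (-Γ)) * (a * ENNReal.ofReal (Real.exp Γ)) := by
    rw [mul_comm a, ← mul_assoc, ← ENNReal.ofReal_mul (Real.exp_pos _).le, ← Real.exp_add,
      neg_add_cancel, Real.exp_zero, ENNReal.ofReal_one, one_mul]
  rw [h3]
  exact mul_le_mul_right h2 _

/-! ## The hierarchical condition -/

theorem vl_eq {d n : ℕ} (p : Tor d n) (E : Set (Tor d n → ℝ)) :
    vl p E = (volume.restrict {ψ : Tor d n → ℝ | Lip ψ ∧ |ψ p| ≤ 1 / 2}) E := by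
  rw [Measure.restrict_apply' (Lip_meas p)]
  unfold vl
  congr 1
  ext ψ
  constructor
  · rintro ⟨h1, h2, h3⟩
    exact ⟨h3, h1, h2⟩
  · rintro ⟨h3, h1, h2⟩
    exact ⟨h1, h2, h3⟩

theorem reno_bound {d n : ℕ} (p : Tor d n) (J j0 : ℕ) (B : (Tor d n → ℝ) → Finset (Site d))
    (ν ε cR : ℝ) (q : Site d)
    (hR : ∀ (Ω : Type) [MeasurableSpace Ω] (μ : Measure Ω) (J j0 : ℕ)
      (B : Ω → Finset (Site d)) (k : Site d),
      (∀ I ⊆ Grid d J, μ {ω | I ⊆ B ω} ≤ ENNReal.ofReal (ε ^ I.card) * μ Set.univ) →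
      k ∈ Grid d J → j0 ≤ J →
      μ {ω | ¬ Hc ν (B ω) J j0 k} ≤
        ENNReal.ofReal (2 * Real.exp (-(cR * 2 ^ (d * j0)))) * μ Set.univ)
    (hBB : ∀ I ⊆ Grid d J, vl p {ψ | I ⊆ B ψ} ≤ ENNReal.ofReal (ε ^ I.card) * vl p Set.univ)
    (hq : q ∈ Grid d J) (hj : j0 ≤ J) :
    vl p {ψ | ¬ Hc ν (B ψ) J j0 q} ≤
      ENNReal.ofReal (2 * Real.exp (-(cR * 2 ^ (d * j0)))) * vl p Set.univ := by
  rw [vl_eq, vl_eq]
  refine hR (Tor d n → ℝ) _ J j0 B q ?_ hq hj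
  intro I hI
  rw [← vl_eq, ← vl_eq]
  exact hBB I hI

theorem vl_mono {d n : ℕ} (p : Tor d n) {E E' : Set (Tor d n → ℝ)}
    (h : ∀ ψ, Lip ψ → |ψ p| ≤ 1 / 2 → ψ ∈ E → ψ ∈ E') : vl p E ≤ vl p E' := by
  unfold vl
  refine measure_mono ?_
  rintro ψ ⟨h1, h2, h3⟩
  exact ⟨h1, h2, h ψ h1 h2 h3⟩

theorem vl_union {d n : ℕ} (p : Tor d n) (E E' : Set (Tor d n → ℝ)) :
    vl p (E ∪ E') ≤ vl p E + vl p E' := by
  rw [vl_eq, vl_eq, vl_eq]
  exact measure_union_le _ _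

/-! ## Constants -/

theorem exists_theta (P : ℕ → ℝ → Prop) (hP : ∀ K θ θ', 0 < θ' → θ' ≤ θ → P K θ → P K θ')
    (s : Finset ℕ) (h : ∀ K ∈ s, ∃ θ : ℝ, 0 < θ ∧ P K θ) :
    ∃ θ : ℝ, 0 < θ ∧ ∀ K ∈ s, P K θ := by
  classical
  induction s using Finset.induction_on with
  | empty => exact ⟨1, one_pos, fun K hK => absurd hK (Finset.notMem_empty K)⟩
  | insert a s ha ih =>
    obtain ⟨θ1, h1, h2⟩ := ih (fun K hK => h K (Finset.mem_insert_of_mem hK))
    obtain ⟨θ2, h3, h4⟩ := h a (Finset.mem_insert_self a s)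
    refine ⟨min θ1 θ2, lt_min h1 h3, fun K hK => ?_⟩
    rcases Finset.mem_insert.1 hK with h5 | h5
    · rw [h5]
      exact hP a θ2 _ (lt_min h1 h3) (min_le_right _ _) h4
    · exact hP K θ1 _ (lt_min h1 h3) (min_le_left _ _) (h2 K h5)

theorem five_exp (u : ℝ) (hu : 8 ≤ u) : 5 * Real.exp (-u) ≤ Real.exp (-(u / 2)) := by
  have h1 : Real.exp (-(u / 2)) = Real.exp (u / 2) * Real.exp (-u) := by
    rw [← Real.exp_add]
    congr 1
    ring
  rw [h1]
  refine mul_le_mul_of_nonneg_right ?_ (Real.exp_pos _).le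
  have h2 := Real.add_one_le_exp (u / 2)
  linarith only [h2, hu]

theorem t_TA1 : S_BAS → S_DEC → S_CORE → S_RES → S_BB → S_RENO → S_DET → S_PIN → S_TA1 := by
  intro hBAS _ hCORE hRES hBB hRENO hDET _ d hd
  have hd1 : 1 ≤ d := by omega
  obtain ⟨ν, cD, hν, hcD, hdet⟩ := hDET d hd
  obtain ⟨ε, cR, hε, hcR, hreno⟩ := hRENO d ν hd hν
  obtain ⟨δ0, hδ0, hδ08, hbb'⟩ := hBB d hd1
  obtain ⟨K0, R, δ, h4, h16, hK8, hR40, hδ, hδδ, hbb⟩ := hbb' ε hε
  have hK0r : (16 : ℝ) ≤ K0 := by exact_mod_cast h16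
  have hdr : (3 : ℝ) ≤ d := by exact_mod_cast hd
  obtain ⟨θ, hθ, hres⟩ := exists_theta (fun K θ => 4 ∣ K → 0 < K → ∀ (n J : ℕ) (p τ : Tor d n)
    (k : Site d) (i : Fin d) (x : Tor d n → ℝ),
    Conf τ K J R → p ∈ Sk τ K J → k ∈ Grid d J → k i + 1 < 2 ^ J →
    ENNReal.ofReal θ * mg (Yk τ K J) ((Gd τ K k δ δ0 K0 R).indicator (FF p)) x ≤
      mg (Yk τ K J) ((Nev τ K k i).indicator (FF p)) x) (by
      intro K θ θ' _ hle hP h4K hK n J p τ k i x h1 h2 h3 h5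
      refine le_trans ?_ (hP h4K hK n J p τ k i x h1 h2 h3 h5)
      exact mul_le_mul_left (ENNReal.ofReal_le_ofReal hle) _) (Finset.Icc K0 (2 * K0)) (by
      intro K hK
      obtain ⟨hK1, hK2⟩ := Finset.mem_Icc.1 hK
      by_cases h4K : 4 ∣ K
      · have hK1r : (K0 : ℝ) ≤ K := by exact_mod_cast hK1
        have hK2r : (K : ℝ) ≤ 2 * K0 := by exact_mod_cast hK2
        have h8 : 8 ≤ (K : ℝ) * δ0 := hK8.trans (mul_le_mul_of_nonneg_right hK1r hδ0.le)
        have h20 : 20 * (K : ℝ) ≤ R * δ0 := by linarith only [hR40, hK2r]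
        obtain ⟨θ, hθ, h⟩ := hRES d K R K0 δ δ0 hd1 h4K (by omega) hδ hδδ hδ08 h8 h20 hK1
        exact ⟨θ, hθ, fun _ _ => h⟩
      · exact ⟨1, one_pos, fun h => absurd h h4K⟩)
  obtain ⟨a, ha⟩ : ∃ a : ℝ, a = 1 / (32 * d * K0) := ⟨_, rfl⟩
  have ha0 : 0 < a := by rw [ha]; positivity
  obtain ⟨c1, hc1⟩ : ∃ c1 : ℝ, c1 = min (θ / (3072 * K0) * cD * a ^ (d - 2)) (cR * a ^ d) :=
    ⟨_, rfl⟩
  have hc10 : 0 < c1 := by
    rw [hc1]
    exact lt_min (by positivity) (by positivity)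
  refine ⟨K0, R, c1 / 2, 40 * d * K0 + 8 / c1 + 4, h4, h16, by positivity, by positivity, ?_⟩
  intro n K J j0 τ k k' t hconf hK1 hK2 hk hk' hj hC hj1 hj2
  have hK2r : (K : ℝ) ≤ 2 * K0 := by exact_mod_cast hK2
  have hdK : (0 : ℝ) < d * K0 := by positivity
  have h8c : 0 < 8 / c1 := by positivity
  have ht4 : 4 ≤ t := by linarith only [hC, hdK, h8c]
  have ht40 : 40 * (d * K0 : ℝ) ≤ t := by linarith only [hC, h8c]
  have ht8 : 8 / c1 ≤ t := by linarith only [hC, hdK]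
  have ht0 : 0 < t := by linarith only [ht4]
  obtain ⟨X, hX⟩ : ∃ X : ℝ, X = 2 ^ j0 := ⟨_, rfl⟩
  have hX0 : 0 < X := by rw [hX]; positivity
  have hX1 : X * (16 * d * K0) ≤ t := by
    rw [hX]
    exact (le_div_iff₀ (by positivity)).1 hj1
  have hX2 : a * t ≤ X := by
    have h5 := (div_le_iff₀ (by positivity)).1 hj2
    rw [pow_succ, ← hX] at h5
    rw [ha, one_div, inv_mul_le_iff₀ (by positivity)]
    linarith only [h5]
  have hKX : (K : ℝ) * X ≤ 2 * K0 * X := mul_le_mul_of_nonneg_right hK2r hX0.le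
  have hKdX : (K : ℝ) * X * d ≤ 2 * K0 * X * d :=
    mul_le_mul_of_nonneg_right hKX (by positivity)
  have hs : t ≤ 2 * (t - 5 * d * K0) - 1 - 4 * K * d * 2 ^ j0 := by
    rw [← hX]
    linarith only [hKdX, hX1, ht40, ht4]
  have hΛ : 2 * (K : ℝ) * 2 ^ j0 ≤ t := by
    rw [← hX]
    have h5 : X * K0 * 3 ≤ X * K0 * d := mul_le_mul_of_nonneg_left hdr (by positivity)
    have h6 : 0 < X * K0 := by positivity
    linarith only [h5, h6, hKX, hX1]
  have h2K : 2 ∣ K := Dvd.dvd.trans (by norm_num) hconf.hK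
  -- the three bounds
  have hhalf := half_bound hd hBAS hCORE τ K J K0 R j0 δ δ0 θ ν cD k k' t (t - 5 * d * K0) hconf
    hK2 hk hk' hj hθ hcD (fun x q hq i hi => hres K (Finset.mem_Icc.2 ⟨hK1, hK2⟩) hconf.hK
      hconf.hK0 n J (ctr τ K k) τ q i x hconf (ctr_mem_Sk τ K J hk) hq hi) hdet ht0 hs hΛ
  have hrk : ∀ q ∈ Grid d J, vl (ctr τ K k) {ψ | ¬ Hc ν (Bd (ctr τ K k) τ K J δ δ0 K0 R ψ) J j0 q} ≤
      ENNReal.ofReal (2 * Real.exp (-(cR * 2 ^ (d * j0)))) * vl (ctr τ K k) Set.univ := by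
    intro q hq
    refine reno_bound (ctr τ K k) J j0 (Bd (ctr τ K k) τ K J δ δ0 K0 R) ν ε cR q hreno ?_ hq hj
    intro I hI
    exact hbb n K J (ctr τ K k) τ I hconf hK1 hK2 (ctr_mem_Sk τ K J hk) hI
  have hu8 : 8 ≤ c1 * t ^ d := by
    have h5 : t ≤ t ^ d := le_self_pow₀ (by linarith only [ht4]) (by omega)
    have h6 : 8 ≤ c1 * t := by
      rw [div_le_iff₀ hc10] at ht8
      linarith only [ht8]
    exact h6.trans (mul_le_mul_of_nonneg_left h5 hc10.le)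
  have hat : 0 ≤ a * t := by positivity
  have hg1 : c1 * t ^ d ≤ θ / (3072 * K0) * (cD * t ^ 2 * 2 ^ ((d - 2) * j0)) := by
    have h5 : (2 : ℝ) ^ ((d - 2) * j0) = X ^ (d - 2) := by
      rw [hX, ← pow_mul, mul_comm]
    have h6 : (a * t) ^ (d - 2) ≤ X ^ (d - 2) := pow_le_pow_left₀ hat hX2 _
    have h7 : t ^ d = t ^ 2 * t ^ (d - 2) := by
      rw [← pow_add]
      congr 1
      omega
    have h8 : c1 * t ^ d ≤ θ / (3072 * K0) * cD * a ^ (d - 2) * t ^ d :=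
      mul_le_mul_of_nonneg_right (by rw [hc1]; exact min_le_left _ _) (by positivity)
    refine h8.trans ?_
    rw [h5, h7]
    rw [mul_pow] at h6
    have h9 : θ / (3072 * K0) * cD * a ^ (d - 2) * (t ^ 2 * t ^ (d - 2)) =
        θ / (3072 * K0) * (cD * t ^ 2 * (a ^ (d - 2) * t ^ (d - 2))) := by ring
    rw [h9]
    refine mul_le_mul_of_nonneg_left ?_ (by positivity)
    exact mul_le_mul_of_nonneg_left h6 (by positivity)
  have hg2 : c1 * t ^ d ≤ cR * 2 ^ (d * j0) := by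
    have h5 : (2 : ℝ) ^ (d * j0) = X ^ d := by
      rw [hX, ← pow_mul, mul_comm]
    have h6 : (a * t) ^ d ≤ X ^ d := pow_le_pow_left₀ hat hX2 _
    have h8 : c1 * t ^ d ≤ cR * a ^ d * t ^ d :=
      mul_le_mul_of_nonneg_right (by rw [hc1]; exact min_le_right _ _) (by positivity)
    refine h8.trans ?_
    rw [h5, mul_assoc, ← mul_pow]
    exact mul_le_mul_of_nonneg_left h6 hcR.le
  obtain ⟨V, hV⟩ : ∃ V : ℝ≥0∞, V = vl (ctr τ K k) Set.univ := ⟨_, rfl⟩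
  rw [← hV] at hhalf hrk ⊢
  have hb1 : vl (ctr τ K k) (E1 ν (t - 5 * d * K0) τ K J K0 R j0 δ δ0 k k') ≤
      ENNReal.ofReal (Real.exp (-(c1 * t ^ d))) * V :=
    hhalf.trans (mul_le_mul_left (ENNReal.ofReal_le_ofReal
      (Real.exp_le_exp.2 (neg_le_neg hg1))) _)
  have hb2 : ∀ q ∈ Grid d J,
      vl (ctr τ K k) {ψ | ¬ Hc ν (Bd (ctr τ K k) τ K J δ δ0 K0 R ψ) J j0 q} ≤
      ENNReal.ofReal (2 * Real.exp (-(c1 * t ^ d))) * V := by
    intro q hq
    refine (hrk q hq).trans (mul_le_mul_left (ENNReal.ofReal_le_ofReal ?_) _)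
    exact mul_le_mul_of_nonneg_left (Real.exp_le_exp.2 (neg_le_neg hg2)) (by norm_num)
  have hcover : vl (ctr τ K k) {ψ | t - 5 * d * K0 ≤ ψ (ctr τ K k')} ≤
      vl (ctr τ K k) (E1 ν (t - 5 * d * K0) τ K J K0 R j0 δ δ0 k k' ∪
        ({ψ | ¬ Hc ν (Bd (ctr τ K k) τ K J δ δ0 K0 R ψ) J j0 k} ∪
          {ψ | ¬ Hc ν (Bd (ctr τ K k) τ K J δ δ0 K0 R ψ) J j0 k'})) := by
    refine vl_mono _ (fun ψ hL hp hψ => ?_)
    by_cases h5 : Hc ν (Bd (ctr τ K k) τ K J δ δ0 K0 R ψ) J j0 k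
    · by_cases h6 : Hc ν (Bd (ctr τ K k) τ K J δ δ0 K0 R ψ) J j0 k'
      · exact Or.inl ⟨hψ, hp, LSk_of_Lip hL τ K J, h5, h6⟩
      · exact Or.inr (Or.inr h6)
    · exact Or.inr (Or.inl h5)
  refine hcover.trans ((vl_union _ _ _).trans ((add_le_add le_rfl (vl_union _ _ _)).trans
    ((add_le_add hb1 (add_le_add (hb2 k hk) (hb2 k' hk'))).trans ?_)))
  rw [← add_mul, ← add_mul, ← ENNReal.ofReal_add (by positivity) (by positivity),
    ← ENNReal.ofReal_add (by positivity) (by positivity)]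
  refine mul_le_mul_left (ENNReal.ofReal_le_ofReal ?_) _
  have h5 := five_exp (c1 * t ^ d) hu8
  have h6 : -(c1 / 2 * t ^ d) = -(c1 * t ^ d / 2) := by ring
  rw [h6]
  refine le_trans (le_of_eq ?_) h5
  ring

end

end Pool.Agent.H282.LF
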